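import Pool.Agent.SOR.Stmts1

/-!
# Squad SOR, row NDK: the last terms of the node formula
-/

set_option autoImplicit false

open scoped BigOperators

noncomputable section

namespace Pool.Agent.SOR.H45

open Pool.Agent.SOR

section coc

variable {H Y : Type} [Group H] {i : H →* Equiv.Perm Y} {u : H → Y → ℚ}

theorem cx_one (hu : Cx i u) (y : Y) : u 1 y = 0 := by
  have h := hu 1 1 y
  rw [mul_one, map_one, Equiv.Perm.one_apply] at h
  linarith

theorem cx_inv (hu : Cx i u) (g : H) (y : Y) : u g⁻¹ y = - u g (i g⁻¹ y) := by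
  have h := hu g g⁻¹ y
  rw [mul_inv_cancel, cx_one hu] at h
  linarith

theorem cx_dl (f : Y → ℚ) : Cx i (dl i f) := by
  intro g h y
  unfold dl
  rw [map_mul, Equiv.Perm.mul_apply]
  ring

end coc

theorem mul_app {Y : Type} (i : Fr →* Equiv.Perm Y) (g h : Fr) (y : Y) :
    i (g * h) y = i g (i h y) := by
  rw [map_mul, Equiv.Perm.mul_apply]

theorem ndk : NdkStmt := by
  intro Y _ R i x₁ x₂ h₁ h₂ hB π f₁ f₂ μ₁ μ₂ g₂ hN
  have hμC : ∀ y, μ₁ (i lC y) = μ₁ y := by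
    intro y
    have h1 := hN.c₁ (i lC y)
    have h2 : i lA' (i lC y) = i lA y := by
      rw [← mul_app]
      congr 2
      unfold lA' lC
      group
    rw [h2, hN.b₁] at h1
    exact h1.symm
  constructor
  · obtain ⟨X, hX⟩ : ∃ X : Fr → Y → ℚ, X = fun w y => x₂ w y + dl i f₂ w y := ⟨_, rfl⟩
    have hXc : Cx i X := by
      intro g h y
      rw [hX]
      show x₂ (g * h) y + dl i f₂ (g * h) y = _
      rw [hB.ex₂ g h y, cx_dl f₂ g h y]
      ring
    have e1 : ∑ y, μ₁ y * x₂ lC y = ∑ y, μ₁ y * X lC y := by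
      have h1 : ∑ y, μ₁ y * dl i f₂ lC y = 0 := by
        have h2 : ∑ y, μ₁ (i lC y) * f₂ (i lC y) = ∑ y, μ₁ y * f₂ y :=
          Equiv.sum_comp (i lC) fun y => μ₁ y * f₂ y
        have h3 : ∑ y, μ₁ y * dl i f₂ lC y =
            ∑ y, μ₁ (i lC y) * f₂ (i lC y) - ∑ y, μ₁ y * f₂ y := by
          rw [← Finset.sum_sub_distrib]
          refine Finset.sum_congr rfl fun y _ => ?_
          rw [hμC]
          unfold dl
          ring
        rw [h3, h2, sub_self]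
      have h4 : ∑ y, μ₁ y * X lC y = ∑ y, μ₁ y * x₂ lC y + ∑ y, μ₁ y * dl i f₂ lC y := by
        rw [← Finset.sum_add_distrib]
        refine Finset.sum_congr rfl fun y _ => ?_
        rw [hX]
        ring
      rw [h4, h1, add_zero]
    have e2 : ∀ y, X lC y = - X lB (i lC y) - X lA (i (lA⁻¹ * lB * lA) y) + X lB (i lA y) +
        X lA y := by
      intro y
      have h1 : lC = lB⁻¹ * (lA⁻¹ * (lB * lA)) := by
        unfold lC
        group
      have h2 : X lC y = X lB⁻¹ (i (lA⁻¹ * (lB * lA)) y) + X (lA⁻¹ * (lB * lA)) y := by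
        rw [← hXc, ← h1]
      have h3 : X lB⁻¹ (i (lA⁻¹ * (lB * lA)) y) = - X lB (i lC y) := by
        rw [cx_inv hXc, ← mul_app, ← h1]
      have h4 : X lA⁻¹ (i (lB * lA) y) = - X lA (i (lA⁻¹ * lB * lA) y) := by
        rw [cx_inv hXc, ← mul_app, ← mul_assoc]
      rw [h2, h3, hXc lA⁻¹ (lB * lA) y, hXc lB lA y, h4]
      ring
    have s1 : ∑ y, μ₁ y * X lB (i lC y) = ∑ y, μ₁ y * X lB y := by
      rw [← Equiv.sum_comp (i lC) fun y => μ₁ y * X lB y]
      refine Finset.sum_congr rfl fun y _ => ?_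
      rw [hμC]
    have s2 : ∑ y, μ₁ y * X lB (i lA y) = ∑ y, μ₁ y * X lB y := by
      rw [← Equiv.sum_comp (i lA) fun y => μ₁ y * X lB y]
      refine Finset.sum_congr rfl fun y _ => ?_
      rw [hN.b₁]
    have s3 : ∑ y, μ₁ y * X lA (i (lA⁻¹ * lB * lA) y) = ∑ y, μ₁ ((i lB)⁻¹ y) * X lA y := by
      rw [← Equiv.sum_comp (i (lA⁻¹ * lB * lA)) fun y => μ₁ ((i lB)⁻¹ y) * X lA y]
      refine Finset.sum_congr rfl fun y _ => ?_
      congr 1
      rw [← map_inv, ← mul_app, show lB⁻¹ * (lA⁻¹ * lB * lA) = lC from by unfold lC; group, hμC]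
    have e3 : ∑ y, μ₁ y * X lC y = ∑ y, (μ₁ y - μ₁ ((i lB)⁻¹ y)) * X lA y := by
      have h1 : ∑ y, μ₁ y * X lC y = - (∑ y, μ₁ y * X lB (i lC y)) -
          ∑ y, μ₁ y * X lA (i (lA⁻¹ * lB * lA) y) + ∑ y, μ₁ y * X lB (i lA y) +
          ∑ y, μ₁ y * X lA y := by
        rw [← Finset.sum_neg_distrib, ← Finset.sum_sub_distrib, ← Finset.sum_add_distrib,
          ← Finset.sum_add_distrib]
        refine Finset.sum_congr rfl fun y _ => ?_
        rw [e2]
        ring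
      have h2 : ∑ y, (μ₁ y - μ₁ ((i lB)⁻¹ y)) * X lA y =
          ∑ y, μ₁ y * X lA y - ∑ y, μ₁ ((i lB)⁻¹ y) * X lA y := by
        rw [← Finset.sum_sub_distrib]
        refine Finset.sum_congr rfl fun y _ => ?_
        ring
      rw [h1, h2, s1, s2, s3]
      ring
    have e4 : ∑ y, μ₁ y * (h₂ y - x₂ lC y) = ∑ y, μ₁ y * h₂ y - ∑ y, μ₁ y * x₂ lC y := by
      rw [← Finset.sum_sub_distrib]
      refine Finset.sum_congr rfl fun y _ => ?_
      ring
    rw [e4, e1, e3, hX]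
  · intro Δ hΔ
    have h1 : ∑ y, Δ y * f₂ (π⁻¹ y) = ∑ y, Δ y * f₂ y := by
      rw [← Equiv.sum_comp π fun y => Δ y * f₂ (π⁻¹ y)]
      refine Finset.sum_congr rfl fun y _ => ?_
      rw [hΔ, ← Equiv.Perm.mul_apply, inv_mul_cancel, Equiv.Perm.one_apply]
    have h2 : ∑ y, Δ y * (g₂ y + f₂ (π⁻¹ y) - f₂ y + μ₂ y) =
        ∑ y, Δ y * (g₂ y + μ₂ y) + (∑ y, Δ y * f₂ (π⁻¹ y) - ∑ y, Δ y * f₂ y) := by
      rw [← Finset.sum_sub_distrib, ← Finset.sum_add_distrib]
      refine Finset.sum_congr rfl fun y _ => ?_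
      ring
    rw [h2, h1, sub_self, add_zero]

end Pool.Agent.SOR.H45
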